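import Pool.Agent.P8H50.NK.Stm4

/-! Project NK, package LGD: the determinant has at most a simple pole. -/

set_option autoImplicit false

namespace Pool.Agent.P8H37.NK

open FF Pool.Agent.W602.GT Pool.Agent.W603.LV
open Pool.Agent.P8H50.NK

section

variable {k K : Type} [Field k] [Field K] [Algebra k K]

/-- determinants with exponents for the rows -/
theorem ge_det_rows {T : Type} [Fintype T] [DecidableEq T] (P : Place k K) (M : Matrix T T K)
    (e : T → ℤ) (hM : ∀ a b, Ge P (e a) (M a b)) : Ge P (∑ a, e a) M.det := by
  rw [Matrix.det_apply']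
  refine Ge.sum _ _ fun σ _ => ?_
  have h1 := (Ge.intCast (P := P) (Equiv.Perm.sign σ : ℤ)).mul
    (Ge.prod Finset.univ (fun i => M (σ i) i) (fun i => e (σ i)) (fun i _ => hM _ _))
  rw [zero_add, Equiv.sum_comp σ e] at h1
  exact h1

/-- the matrix after the powers of the uniformizer are taken out of the columns -/
noncomputable def core {s w : ℕ} (D : Fin w → Derivation k K K) (π : K) (u : Fin w ⊕ Fin s → K)
    (m : Fin w ⊕ Fin s → ℤ) (χ : Fin s → Fin w ⊕ Fin s → K) :
    Matrix (Fin w ⊕ Fin s) (Fin w ⊕ Fin s) K :=
  Matrix.of fun a b => Sum.elim (fun i => D i (u b) + m b * (D i π / π) * u b) (fun j => χ j b) a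

theorem det_core {P : Place k K} {s w : ℕ} (D : Fin w → Derivation k K K)
    (hD : ∀ i, DerReg P (D i)) {π : K} (hπ : P.ord π = 1) (u : Fin w ⊕ Fin s → K)
    (hu : ∀ b, Ge P 0 (u b)) (m : Fin w ⊕ Fin s → ℤ) (χ : Fin s → Fin w ⊕ Fin s → K)
    (hχ : ∀ j b, Ge P 0 (χ j b)) : Ge P (-1) (core D π u m χ).det := by
  classical
  have hπ0 : π ≠ 0 := by
    intro h
    rw [h, P.ord_zero] at hπ; omega
  have hDu : ∀ i b, Ge P 0 (D i (u b)) := fun i b => hD i _ (hu b)
  have hρ : ∀ i, Ge P (-1) (D i π / π) := by
    intro i
    have := ge_div hπ0 (hD i π (Or.inr (by omega)))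
    rw [hπ] at this
    simpa using this
  by_cases hall : ∀ i, Ge P 0 (D i π / π)
  · refine Ge.mono (N := 0) (by omega) ?_
    have h1 := ge_det_rows P (core D π u m χ) (fun _ => 0) (by
      intro a b
      rcases a with i | j
      · change Ge P 0 (D i (u b) + m b * (D i π / π) * u b)
        refine (hDu i b).add ?_
        have := ((Ge.intCast (P := P) (m b)).mul (hall i)).mul (hu b)
        simpa using this
      · exact hχ j b)
    simpa using h1
  · push Not at hall
    obtain ⟨i0, hi0⟩ := hall
    have h0 : D i0 π / π ≠ 0 := fun h => hi0 (Or.inl h)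
    have h1 : P.ord (D i0 π / π) = -1 := by
      have h2 : ¬ 0 ≤ P.ord (D i0 π / π) := fun h => hi0 (Or.inr h)
      have h3 := (hρ i0).resolve_left h0
      omega
    have hq : ∀ i, Ge P 0 (D i π / π / (D i0 π / π)) := by
      intro i
      have := ge_div h0 (hρ i)
      rw [h1] at this
      simpa using this
    have hdet : (core D π u m χ).det = (Matrix.of fun a b => Sum.elim (fun i => if i = i0 then
        D i0 (u b) + m b * (D i0 π / π) * u b else
        D i (u b) - D i π / π / (D i0 π / π) * D i0 (u b)) (fun j => χ j b) a :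
          Matrix (Fin w ⊕ Fin s) (Fin w ⊕ Fin s) K).det := by
      refine Matrix.det_eq_of_forall_row_eq_smul_add_const
        (Sum.elim (fun i => if i = i0 then 0 else D i π / π / (D i0 π / π)) fun _ => 0)
        (Sum.inl i0) ?_ ?_
      · simp
      · intro a b
        rcases a with i | j
        · by_cases hi : i = i0
          · subst hi
            simp [core]
          · simp only [core, Matrix.of_apply, Sum.elim_inl, if_neg hi, if_true]
            rw [mul_add, show D i π / π / (D i0 π / π) * (m b * (D i0 π / π) * u b) =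
              D i π / π / (D i0 π / π) * (D i0 π / π) * (m b * u b) by ring,
              div_mul_cancel₀ _ h0]
            ring
        · simp [core]
    rw [hdet]
    have h2 := ge_det_rows P (Matrix.of fun a b => Sum.elim (fun i => if i = i0 then
        D i0 (u b) + m b * (D i0 π / π) * u b else
        D i (u b) - D i π / π / (D i0 π / π) * D i0 (u b)) (fun j => χ j b) a :
          Matrix (Fin w ⊕ Fin s) (Fin w ⊕ Fin s) K)
      (Sum.elim (fun i => if i = i0 then -1 else 0) fun _ => 0) (by
      intro a b
      rcases a with i | j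
      · by_cases hi : i = i0
        · simp only [Matrix.of_apply, Sum.elim_inl, if_pos hi]
          refine ((hDu i0 b).mono (by omega)).add ?_
          have := ((Ge.intCast (P := P) (m b)).mul (hρ i0)).mul (hu b)
          simpa using this
        · simp only [Matrix.of_apply, Sum.elim_inl, if_neg hi]
          refine (hDu i b).sub ?_
          have := (hq i).mul (hDu i0 b)
          simpa using this
      · exact hχ j b)
    have h3 : ∑ a, (Sum.elim (fun i => if i = i0 then (-1 : ℤ) else 0) fun _ => 0 :
        Fin w ⊕ Fin s → ℤ) a = -1 := by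
      simp [Fintype.sum_sum_type]
    rw [h3] at h2
    exact h2

end

theorem lgd : S_LGD := by
  intro k K _ _ _ _ s w n ε P D hD Y α hY
  have hYb : ∀ b, Ge P 0 (fl Y (ε.symm b)) := fun b => (hY _ _).mono (Int.natCast_nonneg _)
  constructor
  · by_cases h0 : ∃ b, fl Y (ε.symm b) = 0
    · obtain ⟨b, hb⟩ := h0
      left
      refine Matrix.det_eq_zero_of_column_eq_zero b fun a => ?_
      rcases a with i | j <;> simp [big, hb]
    · push Not at h0
      have hπ := ord_unif P
      have hπ0 : unif P ≠ 0 := by
        intro h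
        rw [h, P.ord_zero] at hπ; omega
      have hex : ∀ b, ∃ u : K, u ≠ 0 ∧ P.ord u = 0 ∧
          fl Y (ε.symm b) = u * unif P ^ (P.ord (fl Y (ε.symm b))) := fun b => unit_mul P hπ (h0 b)
      choose u hu0 hu1 hu2 using hex
      obtain ⟨m, hm⟩ : ∃ m : Fin w ⊕ Fin s → ℤ, m = fun b => P.ord (fl Y (ε.symm b)) := ⟨_, rfl⟩
      have hu3 : ∀ b, fl Y (ε.symm b) = u b * unif P ^ m b := fun b => by
        rw [hm]
        exact hu2 b
      have hbig : big ε Y D = Matrix.of fun a b => unif P ^ m b *
          core D (unif P) u m (fun j b => if (ε.symm b).1 = j then u b else 0) a b := by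
        ext a b
        rcases a with i | j
        · simp only [big, core, Matrix.of_apply, Sum.elim_inl]
          rw [hu3 b, (D i).leibniz, der_zpow (D i) hπ0]
          simp only [smul_eq_mul]
          ring
        · simp only [big, core, Matrix.of_apply, Sum.elim_inr]
          split_ifs
          · rw [hu3 b, mul_comm]
          · rw [mul_zero]
      rw [hbig, Matrix.det_mul_row]
      have h1 : Ge P (∑ b, m b) (∏ b, unif P ^ m b) :=
        Ge.prod Finset.univ _ m fun b _ => Or.inr (by rw [P.ord_zpow, hπ, mul_one])
      have h2 := det_core (P := P) D hD hπ u (fun b => Or.inr (hu1 b).ge) m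
        (fun j b => if (ε.symm b).1 = j then u b else 0) (fun j b => by
          split_ifs
          · exact Or.inr (hu1 b).ge
          · exact Ge.zero)
      refine (h1.mul h2).mono ?_
      have h4 : ∑ j, ∑ a, (α j a : ℤ) = ∑ b, (α (ε.symm b).1 (ε.symm b).2 : ℤ) := by
        rw [Equiv.sum_comp ε.symm (fun q : Σ j, Fin (n j + 1) => (α q.1 q.2 : ℤ)),
          Fintype.sum_sigma]
      have h5 : ∑ b, (α (ε.symm b).1 (ε.symm b).2 : ℤ) ≤ ∑ b, m b := by
        refine Finset.sum_le_sum fun b _ => ?_
        rw [hm]
        exact (hY _ _).resolve_left (h0 b)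
      linarith
  · have h1 := ge_det_rows P (big ε Y D) (fun _ => 0) (by
      intro a b
      rcases a with i | j
      · exact hD i _ (hYb b)
      · change Ge P 0 (if (ε.symm b).1 = j then fl Y (ε.symm b) else 0)
        split_ifs
        · exact hYb b
        · exact Ge.zero)
    simpa using h1

end Pool.Agent.P8H37.NK
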